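import Pool.Agent.H487.GP.Stm2
import Pool.Agent.H358.GA.Cdf
import Mathlib.Probability.Distributions.Gaussian.Real

set_option autoImplicit false

/-!
# `S_CDFU` from `S_LEV2`, `S_MAINY`, `S_GADU` (helper36; model: `Pool/Agent/H600/GP/CDF2.lean`)
-/

open Finset Complex Filter Topology Metric Set MeasureTheory

namespace Pool.Agent.H36.GP

open Pool.Agent.H487.GA Pool.Agent.H487.GP Pool.Agent.H358.GA

noncomputable section

theorem vv_pos {v : ℝ} (hv : v ≠ 0) : 0 < vv v := by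
  unfold vv
  have h0 : 0 < v ^ 2 := by positivity
  have h1 : 0 < Real.log (1 + v ^ 2 / 4) := Real.log_pos (by linarith)
  linarith

theorem vv_cont : Continuous vv := by
  unfold vv
  refine Continuous.div_const (Continuous.log (by fun_prop) fun v => ?_) _
  positivity

theorem law_eq (T : ℝ) (X : ℝ → ℝ) : law T X = (cdfNu T).map X := rfl

theorem cdfu_proof (h1 : S_LEV2) (h2 : Pool.Agent.H487.GA.S_MAINY) (h3 : S_GADU) : S_CDFU := by
  intro v0 v1 hv0 hv01 ε hε
  obtain ⟨V1, hV1, hA1⟩ := h3 v0 v1 hv0 hv01 1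
  obtain ⟨δ₁, K₁, hδ₁, hK₁, hA⟩ := hA1 1 one_pos
  -- regularity
  have hC2c : ∀ v : ℝ, v0 ≤ v → v ≤ v1 → ∀ r L : ℝ, 0 < r → r ≤ δ₁ → K₁ ≤ r * L →
      C2c (Gv v r) := by
    intro v hva hvb r L hr hr1 hrL
    have hAd := (hA v hva hvb r L hr hr1 hrL).1.c2
    simpa using hAd
  have hmeas : ∀ v : ℝ, v0 ≤ v → v ≤ v1 → ∀ T : ℝ, 10 ≤ T → ∀ r : ℝ, 0 < r → r ≤ δ₁ →
      K₁ ≤ r * Real.log T →
      AEMeasurable (XF (Gv v r) T) (volume.restrict (Icc T (2 * T))) := by
    intro v hva hvb T hT r hr hr1 hrL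
    exact (cdf_XF_contOn (hC2c v hva hvb r _ hr hr1 hrL) (by linarith)).aemeasurable
      measurableSet_Icc
  have hmeas' : ∀ v : ℝ, v0 ≤ v → v ≤ v1 → ∀ T : ℝ, 10 ≤ T → ∀ r : ℝ, 0 < r → r ≤ δ₁ →
      K₁ ≤ r * Real.log T →
      AEMeasurable (XF (Gv v r) T) (cdfNu T) := by
    intro v hva hvb T hT r hr hr1 hrL
    unfold cdfNu
    exact (hmeas v hva hvb T hT r hr hr1 hrL).smul_measure _
  have hprob : ∀ v : ℝ, v0 ≤ v → v ≤ v1 → ∀ T : ℝ, 10 ≤ T → ∀ r : ℝ, 0 < r → r ≤ δ₁ →
      K₁ ≤ r * Real.log T →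
      IsProbabilityMeasure (law T (XF (Gv v r) T)) := by
    intro v hva hvb T hT r hr hr1 hrL
    rw [law_eq]
    have := cdfNu_prob (T := T) (by linarith)
    exact Measure.isProbabilityMeasure_map (hmeas' v hva hvb T hT r hr hr1 hrL)
  have hn0 : ∀ n : ℕ, (0:ℝ) ≤ n := fun n => Nat.cast_nonneg n
  have hclose : ∃ N : ℕ, ∀ v : ℝ, v0 ≤ v → v ≤ v1 → ∀ T : ℝ, (N : ℝ) + 10 ≤ T →
      ∀ r : ℝ, 0 < r →
      max K₁ ((N : ℝ) + 1) ≤ r * Real.log T → r ≤ min δ₁ (1 / ((N : ℝ) + 1)) →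
      ∀ a : ℝ, |(law T (XF (Gv v r) T)).real (Set.Iic a) - (nu v).real (Set.Iic a)| ≤ ε := by
    by_contra hcon
    push Not at hcon
    choose vs hva hvb Ts hTs rs hr0s hr1s hr2s as hbads using hcon
    obtain ⟨v', hv', φ, hφ, hlimv⟩ := isCompact_Icc.tendsto_subseq (x := vs)
      (fun n => (⟨hva n, hvb n⟩ : vs n ∈ Icc v0 v1))
    have hv'0 : v' ≠ 0 := by linarith [hv'.1]
    have hφn : ∀ n : ℕ, (n : ℝ) ≤ (φ n : ℝ) := fun n => by exact_mod_cast hφ.id_le n
    have hTpos : ∀ n, 0 < Ts (φ n) := fun n => by linarith [hTs (φ n), hn0 (φ n)]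
    have hT10 : ∀ n, 10 ≤ Ts (φ n) := fun n => by linarith [hTs (φ n), hn0 (φ n)]
    have hr2' : ∀ n, rs (φ n) ≤ δ₁ := fun n => (hr2s (φ n)).trans (min_le_left _ _)
    have hr1' : ∀ n, K₁ ≤ rs (φ n) * Real.log (Ts (φ n)) :=
      fun n => (le_max_left _ _).trans (hr1s (φ n))
    have hm : ∀ n, AEMeasurable (XF (Gv (vs (φ n)) (rs (φ n))) (Ts (φ n))) (cdfNu (Ts (φ n))) :=
      fun n => hmeas' _ (hva _) (hvb _) _ (hT10 n) _ (hr0s _) (hr2' n) (hr1' n)
    have hTt : Tendsto (fun n => Ts (φ n)) atTop atTop := by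
      apply tendsto_atTop_mono (f := fun n : ℕ => (n : ℝ))
      · intro n; linarith [hTs (φ n), hφn n]
      · exact tendsto_natCast_atTop_atTop
    have hrt : Tendsto (fun n => rs (φ n)) atTop (𝓝 0) := by
      refine squeeze_zero (fun n => (hr0s _).le) (fun n => (hr2s (φ n)).trans (min_le_right _ _))
        (tendsto_one_div_add_atTop_nhds_zero_nat.comp hφ.tendsto_atTop)
    have hrLt : Tendsto (fun n => rs (φ n) * Real.log (Ts (φ n))) atTop atTop := by
      apply tendsto_atTop_mono (f := fun n : ℕ => (n : ℝ))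
      · intro n
        have := (le_max_right K₁ ((φ n : ℝ) + 1)).trans (hr1s (φ n))
        linarith [hφn n]
      · exact tendsto_natCast_atTop_atTop
    have hvv : Tendsto (fun n => vv (vs (φ n))) atTop (𝓝 (vv v')) :=
      (vv_cont.tendsto v').comp hlimv
    have hs0 : (vv v').toNNReal ≠ 0 := by
      have := vv_pos hv'0
      exact (Real.toNNReal_pos.2 this).ne'
    have hvsn : ∀ n, vs (φ n) ≠ 0 := fun n => by linarith [hva (φ n)]
    -- the laws
    have hlev := h1 (vv v').toNNReal hs0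
      (fun n => law (Ts (φ n)) (XF (Gv (vs (φ n)) (rs (φ n))) (Ts (φ n))))
      (fun n => hprob _ (hva _) (hvb _) _ (hT10 n) _ (hr0s _) (hr2' n) (hr1' n))
      (fun u => ?_) (ε / 2) (by positivity)
    -- the Gaussian laws
    have hlev2 := h1 (vv v').toNNReal hs0 (fun n => nu (vs (φ n)))
      (fun n => by unfold nu; infer_instance) (fun u => ?_) (ε / 2) (by positivity)
    · -- conclusion
      obtain ⟨N, hN1, hN2⟩ := (hlev.and hlev2).exists
      have h5 := hN1 (as (φ N))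
      have h7 := hN2 (as (φ N))
      have h6 := hbads (φ N)
      have h8 := abs_sub_le
        ((law (Ts (φ N)) (XF (Gv (vs (φ N)) (rs (φ N))) (Ts (φ N)))).real (Set.Iic (as (φ N))))
        ((ProbabilityTheory.gaussianReal 0 (vv v').toNNReal).real (Set.Iic (as (φ N))))
        ((nu (vs (φ N))).real (Set.Iic (as (φ N))))
      rw [abs_sub_comm ((ProbabilityTheory.gaussianReal 0 (vv v').toNNReal).real
        (Set.Iic (as (φ N))))] at h8
      linarith
    · -- characteristic functions of the Gaussian laws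
      have h5 : Continuous fun s : ℝ => cexp (-(s : ℂ) * (u : ℂ) ^ 2 / 2) := by fun_prop
      have h6 := (h5.tendsto (vv v')).comp hvv
      rw [Real.coe_toNNReal _ (vv_pos hv'0).le]
      refine h6.congr fun n => ?_
      unfold nu
      rw [ProbabilityTheory.charFun_gaussianReal, Real.coe_toNNReal _ (vv_pos (hvsn n)).le]
      simp only [Function.comp]
      congr 1
      push_cast
      ring
    · -- characteristic functions
      obtain ⟨V, hV, hK⟩ := h3 v0 v1 hv0 hv01 u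
      have hsg : Tendsto (fun n => sg (fun x => u * Gv (vs (φ n)) (rs (φ n)) x)) atTop
          (𝓝 (u ^ 2 * vv v')) := by
        have hd : Tendsto (fun n => sg (fun x => u * Gv (vs (φ n)) (rs (φ n)) x) -
            u ^ 2 * vv (vs (φ n))) atTop (𝓝 0) := by
          rw [Metric.tendsto_atTop]
          intro e he
          obtain ⟨δ, K, hδ, hK1, hK2⟩ := hK (e / 2) (by positivity)
          have e1 := (hrt.eventually_lt_const hδ).and (hrLt.eventually_ge_atTop K)
          rw [eventually_atTop] at e1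
          obtain ⟨N, hN⟩ := e1
          refine ⟨N, fun n hn => ?_⟩
          have := (hK2 (vs (φ n)) (hva _) (hvb _) (rs (φ n)) (Real.log (Ts (φ n))) (hr0s _)
            (hN n hn).1.le (hN n hn).2).2
          rw [Real.dist_eq, sub_zero]
          linarith
        have := hd.add (hvv.const_mul (u ^ 2))
        simpa using this
      have hlim : Tendsto (fun n => cexp (-(sg (fun x => u * Gv (vs (φ n)) (rs (φ n)) x) : ℂ) / 2))
          atTop (𝓝 (cexp (-(((vv v').toNNReal : ℝ) : ℂ) * (u : ℂ) ^ 2 / 2))) := by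
        have h5 : Continuous fun s : ℝ => cexp (-(s : ℂ) / 2) := by fun_prop
        have h6 := (h5.tendsto (u ^ 2 * vv v')).comp hsg
        have h7 : cexp (-((u ^ 2 * vv v' : ℝ) : ℂ) / 2) =
            cexp (-(((vv v').toNNReal : ℝ) : ℂ) * (u : ℂ) ^ 2 / 2) := by
          rw [Real.coe_toNNReal _ (vv_pos hv'0).le]
          congr 1
          push_cast
          ring
        rw [h7] at h6
        exact h6
      have hdiff : Tendsto (fun n =>
          charFun (law (Ts (φ n)) (XF (Gv (vs (φ n)) (rs (φ n))) (Ts (φ n)))) u -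
          cexp (-(sg (fun x => u * Gv (vs (φ n)) (rs (φ n)) x) : ℂ) / 2)) atTop (𝓝 0) := by
        rw [Metric.tendsto_atTop]
        intro e he
        obtain ⟨η, T0, hη, _, hT0, hM⟩ := h2 V (e / 2) hV (by positivity)
        obtain ⟨δ, K, hδ, hK1, hK2⟩ := hK η hη
        have e1 := ((hrt.eventually_lt_const hδ).and (hrLt.eventually_ge_atTop K)).and
          (hTt.eventually_ge_atTop T0)
        rw [eventually_atTop] at e1
        obtain ⟨N, hN⟩ := e1
        refine ⟨N, fun n hn => ?_⟩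
        obtain ⟨⟨hn1, hn2⟩, hn3⟩ := hN n hn
        have h5 := (hK2 (vs (φ n)) (hva _) (hvb _) (rs (φ n)) (Real.log (Ts (φ n))) (hr0s _)
          hn1.le hn2).1
        have h6 := hM (Ts (φ n)) hn3 _ h5
        rw [dist_zero_right, law_eq, cdf_char (hTpos n) _ (hm n)]
        have h7 : (∫ t in (Ts (φ n))..(2 * Ts (φ n)),
            cexp (I * ((u * XF (Gv (vs (φ n)) (rs (φ n))) (Ts (φ n)) t : ℝ) : ℂ))) =
            ∫ t in (Ts (φ n))..(2 * Ts (φ n)),
              cexp (I * (XF (fun x => u * Gv (vs (φ n)) (rs (φ n)) x) (Ts (φ n)) t : ℂ)) := by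
          simp only [cdf_XF_smul]
        rw [h7]
        linarith
      have := hdiff.add hlim
      simpa using this
  obtain ⟨N, hN⟩ := hclose
  refine ⟨max K₁ ((N : ℝ) + 1), min δ₁ (1 / ((N : ℝ) + 1)), (N : ℝ) + 10,
    hK₁.trans (le_max_left _ _),
    lt_min hδ₁ (by have := hn0 N; positivity), by linarith [hn0 N],
    fun v hva hvb T hT r hr0 hr1 hr2 => ?_⟩
  have hT10 : 10 ≤ T := by linarith [hn0 N]
  have hr2' : r ≤ δ₁ := hr2.trans (min_le_left _ _)
  have hr1' : K₁ ≤ r * Real.log T := (le_max_left _ _).trans hr1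
  exact ⟨hmeas v hva hvb T hT10 r hr0 hr2' hr1', hprob v hva hvb T hT10 r hr0 hr2' hr1',
    hN v hva hvb T hT r hr0 hr1 hr2⟩

end

end Pool.Agent.H36.GP
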